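import Pool.Agent.J4.H81.HD.Dens

set_option autoImplicit false

/-!
# Bodies with minimal separable Hadwiger number are dense in dimension five

The definitions of `E`, `SymBody`, `Hsep` (and of packings, totally separable packings and
separable Hadwiger configurations) are those of `Pool.Agent.Results.MP_75a0ab_co.NotDense`, where
it is proved that the density fails in all dimensions `d ≥ 7`.
`Pool.Agent.J4.H81.HD.IsSmooth K` says that two hyperplanes which support `K` at the same point
coincide, and `Pool.Agent.J4.H81.HD.bnd d` is `2 d` for `d ≤ 5` and `15`, `27`, `63` for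
`d = 6, 7, 8`.
-/

open Pool.Agent.Results.MP_75a0ab_co.NotDense Pool.Agent.J4.H81.HD

namespace Pool.Agent.Results.MP_75a0ab_co.DenseInDimensionFive

/-- the body is smooth or strictly convex -/
def SmoothOrStrict {d : ℕ} (K : SymBody d) : Prop :=
  IsSmooth (K.1 : Set (E d)) ∨ StrictConvex ℝ (K.1 : Set (E d))

/-- the set of bodies whose separable Hadwiger number has the minimal value `2 d` -/
def minimalBodies (d : ℕ) : Set (SymBody d) := {K | Hsep (K.1 : Set (E d)) = 2 * (d : ℕ∞)}

/-- (1) In dimension `d ≤ 8` every smooth or strictly convex symmetric convex body has separable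
Hadwiger number at least `2 d` and at most `bnd d`, where `bnd d = 2 d` for `d ≤ 5` and
`bnd 6 = 15`, `bnd 7 = 27`, `bnd 8 = 63`; (2) in dimension `d ≤ 5` the symmetric convex bodies
with separable Hadwiger number `2 d` are dense in the space of all symmetric convex bodies. -/
theorem result :
    (∀ d : ℕ, d ≤ 8 → ∀ K : SymBody d, SmoothOrStrict K →
      2 * (d : ℕ∞) ≤ Hsep (K.1 : Set (E d)) ∧ Hsep (K.1 : Set (E d)) ≤ (bnd d : ℕ∞)) ∧
    (∀ d : ℕ, d ≤ 5 → Dense (minimalBodies d)) := by
  have key : ∀ d : ℕ, d ≤ 8 → ∀ K : SymBody d, SmoothOrStrict K →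
      2 * (d : ℕ∞) ≤ Hsep (K.1 : Set (E d)) ∧ Hsep (K.1 : Set (E d)) ≤ (bnd d : ℕ∞) := by
    intro d hd K hK
    obtain ⟨h1, h2⟩ := Hsep_bounds hd K hK
    push_cast at h1
    exact ⟨h1, h2⟩
  refine ⟨key, ?_⟩
  intro d hd K
  rw [Metric.mem_closure_iff]
  intro ε hε
  obtain ⟨L, hL, hdist⟩ := exists_smooth_near K hε
  obtain ⟨h1, h2⟩ := key d (by omega) L (Or.inl hL)
  have h3 : bnd d = 2 * d := by
    unfold bnd
    rw [if_pos hd]
  rw [h3] at h2
  push_cast at h2
  exact ⟨L, le_antisymm h2 h1, by rwa [dist_comm]⟩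

end Pool.Agent.Results.MP_75a0ab_co.DenseInDimensionFive
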